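import Mathlib
import Pool.Agent.Helper34.LF.St

/-!
# Project LF: module CL5
-/

set_option autoImplicit false

open Finset Pool.Agent.Helper34.LF

namespace Pool.Agent.Helper48.LF

variable {N : ℕ}

theorem blk_of {X : Finset (VA N)} {Y : Finset (VB N)} (hX : X.card = 4) (hY : Y.card = 0)
    (h : Gd X Y ∨ Sc X Y) : Blk X := by
  rcases h with (⟨h, _⟩ | ⟨h, _⟩ | ⟨h, _, _⟩) | (⟨hB, _⟩ | ⟨h, _⟩ | ⟨a, a', b, b', _, _, h, _, _⟩)
  · omega
  · omega
  · omega
  · exact hB
  · rw [h, card_empty] at hX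
    omega
  · have := Finset.card_le_two (a := a) (b := a')
    rw [← h, hX] at this
    omega

theorem blkB_of {X : Finset (VA N)} {Y : Finset (VB N)} (hX : X.card = 0) (hY : Y.card = 4)
    (h : Gd X Y ∨ Sc X Y) : BlkB Y := by
  rcases h with (⟨h, _⟩ | ⟨h, _⟩ | ⟨h, _, _⟩) | (⟨hB, _⟩ | ⟨_, h⟩ | ⟨a, a', b, b', _, _, h, _, _⟩)
  · omega
  · omega
  · omega
  · have := hB.1
    omega
  · exact h
  · have : a ∈ X := by rw [h]; simp
    rw [Finset.card_eq_zero.1 hX] at this
    simp at this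

theorem pCL5 : StCL5 := by
  intro N _ X Y hc hX hY
  rcases hc with ⟨h1, h2⟩ | ⟨h1, h2⟩ | ⟨h1, h2⟩ | ⟨h1, h2⟩
  · exfalso
    have key : ∀ a ∈ X, a.2 = ∑ x ∈ X, x.2 := by
      intro a ha
      have h3 := blk_of (by rw [card_erase_of_mem ha, h1]) h2 (hX a ha)
      have h4 := Finset.add_sum_erase X (fun x : VA N => x.2) ha
      rw [h3.2.2, add_zero] at h4
      exact h4
    have h5 := Finset.card_le_card_of_injOn (s := X) (t := (univ : Finset (Fin 4)))
      (fun a : VA N => a.1) (fun a _ => mem_univ _) (by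
        intro a ha a' ha' hh
        exact Prod.ext hh ((key a ha).trans (key a' ha').symm))
    rw [h1, card_univ, Fintype.card_fin] at h5
    omega
  · exfalso
    have key : ∀ b ∈ Y, b = ∑ y ∈ Y, y := by
      intro b hb
      have h3 := blkB_of h1 (by rw [card_erase_of_mem hb, h2]) (hY b hb)
      have h4 := Finset.add_sum_erase Y (fun y : VB N => y) hb
      rw [h3.2, add_zero] at h4
      exact h4
    have h5 : Y.card ≤ 1 := Finset.card_le_one.2 fun b hb b' hb' =>
      (key b hb).trans (key b' hb').symm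
    omega
  · obtain ⟨b, hb⟩ := Finset.card_eq_one.1 h2
    have h3 := hY b (by rw [hb]; simp)
    have h4 : Y.erase b = ∅ := by rw [hb]; simp
    rw [h4] at h3
    exact Or.inl ⟨blk_of h1 (by simp) h3, h2⟩
  · obtain ⟨a, ha⟩ := Finset.card_eq_one.1 h1
    have h3 := hX a (by rw [ha]; simp)
    have h4 : X.erase a = ∅ := by rw [ha]; simp
    rw [h4] at h3
    exact Or.inr (Or.inl ⟨h1, blkB_of (by simp) h2 h3⟩)

end Pool.Agent.Helper48.LF
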